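import Pool.Agent.Q236.CR.Stm2
import Pool.Agent.H373R2.T7.LamZ2

/-!
# Project CR of helper236: windows of `Λ - Λ_z` (job WL)
-/

set_option autoImplicit false

namespace Pool.Agent.Q208.CR

open Finset Filter
open Pool.Agent.Q236.CR
open Pool.Agent.H469R2.NK (e)
open Pool.Agent.H373R2.T7 (pz Vz lamz Vz_pos lamz_nonneg Vz_inv_small)

theorem ev_log (C M : ℕ) : ∀ᶠ x : ℕ in atTop, (M : ℝ) * Real.log x ^ C < x := by
  have h1 := (Real.isLittleO_pow_log_id_atTop (n := C)).bound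
    (show (0 : ℝ) < 1 / ((M : ℝ) + 1) by positivity)
  have h2 : Tendsto (fun N : ℕ => (N : ℝ)) atTop atTop := tendsto_natCast_atTop_atTop
  filter_upwards [h2.eventually h1, eventually_ge_atTop 1] with x h3 h4
  have hx : (1 : ℝ) ≤ x := by exact_mod_cast h4
  have hL : 0 ≤ Real.log x := Real.log_nonneg hx
  simp only [id] at h3
  rw [Real.norm_of_nonneg (by positivity), Real.norm_of_nonneg (by positivity), one_div,
    inv_mul_eq_div, le_div_iff₀ (by positivity)] at h3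
  rcases Nat.eq_zero_or_pos M with h0 | h0
  · subst h0
    simp only [Nat.cast_zero, zero_mul]
    linarith
  · rcases hL.eq_or_lt with h5 | h5
    · rw [← h5]
      rcases Nat.eq_zero_or_pos C with h6 | h6
      · subst h6
        rw [← h5] at h3
        simp only [pow_zero, mul_one, one_mul] at h3 ⊢
        linarith
      · rw [zero_pow (by omega)]
        linarith
    · have h6 : 0 < Real.log x ^ C := by positivity
      linarith

theorem ev_big (M : ℝ) : ∀ᶠ x : ℕ in atTop, M ≤ Real.log x :=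
  (Real.tendsto_log_atTop.comp (tendsto_natCast_atTop_atTop (R := ℝ))).eventually_ge_atTop M

theorem lp {L L' : ℝ} {k : ℕ} (h1 : L / 2 ≤ L') (h2 : 2 ^ (k + 1) ≤ L) : L ^ k ≤ L' ^ (k + 1) := by
  have hL : 0 < L := lt_of_lt_of_le (by positivity) h2
  calc L ^ k = L ^ k * 2 ^ (k + 1) / 2 ^ (k + 1) := by field_simp
    _ ≤ L ^ k * L / 2 ^ (k + 1) := by gcongr
    _ = (L / 2) ^ (k + 1) := by rw [div_pow, pow_succ L k]
    _ ≤ L' ^ (k + 1) := by gcongr

/-- the sizes of `x'` and its logarithm -/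
theorem sizes (Cc M : ℕ) (A : ℝ) : ∀ᶠ x : ℕ in atTop, A ≤ Real.log x ∧ 2 ≤ Real.log x ∧
    ∀ x' : ℕ, (x : ℝ) ≤ x' * Real.log x ^ Cc → x' ≤ x →
      M ≤ x' ∧ Real.log x / 2 ≤ Real.log x' ∧ Real.log x' ≤ Real.log x := by
  filter_upwards [ev_log Cc M, ev_log (2 * Cc) 1, ev_big A, ev_big 2, eventually_ge_atTop 1] with
    x h1 h2 h3 h4 h5
  refine ⟨h3, h4, fun x' hx1 hx2 => ?_⟩
  have hx : (0 : ℝ) < x := by exact_mod_cast h5
  have hL : 0 < Real.log x := by linarith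
  have hM : M ≤ x' := by
    by_contra hc
    push Not at hc
    have h6 : (x' : ℝ) ≤ M := by exact_mod_cast hc.le
    have h7 : (x' : ℝ) * Real.log x ^ Cc ≤ M * Real.log x ^ Cc := by gcongr
    linarith
  have hx'0 : (0 : ℝ) < x' := by
    by_contra hc
    push Not at hc
    have h7 : (x' : ℝ) * Real.log x ^ Cc ≤ 0 := mul_nonpos_of_nonpos_of_nonneg hc (by positivity)
    linarith
  refine ⟨hM, ?_, Real.log_le_log hx'0 (by exact_mod_cast hx2)⟩
  have h8 : (x : ℝ) ≤ (x' : ℝ) ^ 2 := by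
    have h9 : (x : ℝ) ^ 2 ≤ (x' : ℝ) ^ 2 * x := by
      calc (x : ℝ) ^ 2 ≤ (x' * Real.log x ^ Cc) ^ 2 := by gcongr
        _ = (x' : ℝ) ^ 2 * Real.log x ^ (2 * Cc) := by rw [mul_pow, ← pow_mul, mul_comm Cc 2]
        _ ≤ (x' : ℝ) ^ 2 * x := by
          have := h2.le
          rw [Nat.cast_one, one_mul] at this
          gcongr
    nlinarith
  have h10 := Real.log_le_log hx h8
  rw [Real.log_pow] at h10
  push_cast at h10
  linarith

theorem cut_mul (x : ℕ) (f g : ℕ → ℂ) (n : ℕ) : cut x (fun n => f n * g n) n = cut x f n * g n := by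
  unfold cut
  split_ifs <;> simp

theorem norm_e (t : ℝ) : ‖e t‖ = 1 := by
  unfold e
  exact Complex.norm_exp_ofReal_mul_I _

theorem sq_sub_le (u v : ℂ) : ‖u - v‖ ^ 2 ≤ 2 * ‖u‖ ^ 2 + 2 * ‖v‖ ^ 2 := by
  have h1 := norm_sub_le u v
  have h2 : ‖u - v‖ ^ 2 ≤ (‖u‖ + ‖v‖) ^ 2 := by gcongr
  nlinarith [sq_nonneg (‖u‖ - ‖v‖)]

theorem wl : S_SIA → S_LZ → S_COV → S_WL := by
  intro hS hZ hC E1 U1
  obtain ⟨Cc, xc, hc⟩ := hC U1
  obtain ⟨Cs, Xs, hs⟩ := hS (E1 + 1) (U1 + 6)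
  refine ⟨max Cc Cs, fun E => ?_⟩
  obtain ⟨Xl, hl⟩ := hZ (E1 + 1) (E + 1) (U1 + 6)
  obtain ⟨Xv, hv⟩ := Vz_inv_small E
  obtain ⟨x0, h0⟩ := eventually_atTop.1 ((sizes Cc (max Xs Xl)
    (2 ^ (E1 + 1) + 2 ^ (E + 1) + 2 ^ (U1 + 8))).and ((eventually_ge_atTop xc).and
    ((eventually_ge_atTop Xv).and (eventually_ge_atTop 1))))
  refine ⟨x0, fun x hx z hz1 hz2 q hq hqE b Y hY1 hY2 => ?_⟩
  obtain ⟨⟨hA, hL2, hsz⟩, hxc, hxv, hx1⟩ := h0 x hx
  obtain ⟨L, hLdef⟩ : ∃ L, L = Real.log x := ⟨_, rfl⟩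
  rw [← hLdef] at hA hL2 hsz hz1 hz2 hqE hY1 hY2
  have hL1 : 1 ≤ L := by linarith
  have hL0 : 0 < L := by linarith
  have p1 : (0 : ℝ) < 2 ^ (E1 + 1) := by positivity
  have p2 : (0 : ℝ) < 2 ^ (E + 1) := by positivity
  have p3 : (0 : ℝ) < 2 ^ (U1 + 8) := by positivity
  have hxr : (1 : ℝ) ≤ x := by exact_mod_cast hx1
  have hz : 1 ≤ z := by
    have h1 : (1 : ℝ) ≤ z := (one_le_pow₀ hL1).trans hz1
    exact_mod_cast h1
  have hY1' : 1 ≤ Y := by
    have h1 : (1 : ℝ) ≤ Y := by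
      refine le_trans ?_ hY1
      exact one_le_mul_of_one_le_of_one_le (Real.one_le_rpow hxr (by norm_num)) (one_le_pow₀ hL1)
    exact_mod_cast h1
  have hVz := hv x hxv z hz (by rw [← hLdef]; exact hz2)
  rw [← hLdef] at hVz
  have hcc := hc x hxc (fun n => fL z n * e ((b : ℝ) * n / q)) Y ?_ hY1' ?_ ?_
  · rw [← hLdef] at hcc ⊢
    simp_rw [cut_mul] at hcc
    exact hcc
  · -- pointwise
    intro n hn
    rw [norm_mul, norm_e, mul_one, ← hLdef]
    unfold fL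
    rw [Complex.norm_real, Real.norm_eq_abs]
    have h1 : ArithmeticFunction.vonMangoldt n ≤ L := by
      refine ArithmeticFunction.vonMangoldt_le_log.trans ?_
      rw [hLdef]
      rcases Nat.eq_zero_or_pos n with h | h
      · subst h
        rw [Nat.cast_zero, Real.log_zero]
        exact Real.log_nonneg hxr
      · exact Real.log_le_log (by exact_mod_cast h) (by exact_mod_cast hn)
    have h2 : (0 : ℝ) ≤ ArithmeticFunction.vonMangoldt n := ArithmeticFunction.vonMangoldt_nonneg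
    have h3 : lamz z n ≤ L := by
      refine le_trans ?_ hVz
      unfold lamz
      split_ifs
      · exact le_rfl
      · exact (inv_pos.2 (Vz_pos z)).le
    have h4 := lamz_nonneg z n
    rw [abs_le]
    constructor <;> nlinarith
  · -- size of `Y`
    rw [← hLdef]
    refine le_trans ?_ hY2
    gcongr
    exact le_max_left _ _
  · -- dyadic windows
    intro x' hx'1 hx'2
    rw [← hLdef] at hx'1 ⊢
    obtain ⟨hM, hlo, hhi⟩ := hsz x' hx'1 hx'2
    obtain ⟨L', hL'def⟩ : ∃ L', L' = Real.log x' := ⟨_, rfl⟩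
    rw [← hL'def] at hlo hhi
    have hL'1 : 1 ≤ L' := by linarith
    have hx'r : (x' : ℝ) ≤ x := by exact_mod_cast hx'2
    have hx'1r : (1 : ℝ) ≤ x' := by
      have : 0 < x' := by
        rcases Nat.eq_zero_or_pos x' with h | h
        · subst h
          rw [Nat.cast_zero, Real.log_zero] at hL'def
          linarith
        · exact h
      exact_mod_cast this
    have hqE' : (q : ℝ) ≤ Real.log x' ^ (E1 + 1) := by
      rw [← hL'def]
      exact hqE.trans (lp hlo (by linarith))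
    have hYx' : Y ≤ x' := by
      have h1 : (Y : ℝ) * L ^ Cc ≤ x' * L ^ Cc := by
        refine le_trans ?_ hx'1
        refine le_trans ?_ hY2
        gcongr
        exact le_max_left _ _
      have h2 : (Y : ℝ) ≤ x' := le_of_mul_le_mul_right h1 (by positivity)
      exact_mod_cast h2
    have w1 := (hs x' ((le_max_left _ _).trans hM) q hq hqE' b Y (by
      rw [← hL'def]
      refine le_trans ?_ hY1
      gcongr
      calc L' ^ Cs ≤ L ^ Cs := by gcongr
        _ ≤ L ^ max Cc Cs := pow_le_pow_right₀ hL1 (le_max_right _ _)) hYx').1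
    have w2 := fun m => hl x' ((le_max_right _ _).trans hM) z q hq hqE'
      (by
        have h1 : (q : ℝ) ≤ z := hqE.trans hz1
        exact_mod_cast h1)
      (by
        rw [← hL'def]
        exact hz2.trans (lp hlo (by linarith))) b m Y (by
        refine le_trans ?_ hY1
        calc (x' : ℝ) ^ (1 / 8 : ℝ) ≤ (x' : ℝ) ^ (1 / 3 : ℝ) :=
              Real.rpow_le_rpow_of_exponent_le hx'1r (by norm_num)
          _ ≤ (x : ℝ) ^ (1 / 3 : ℝ) := by gcongr
          _ ≤ (x : ℝ) ^ (1 / 3 : ℝ) * L ^ max Cc Cs :=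
              le_mul_of_one_le_right (by positivity) (one_le_pow₀ hL1))
    rw [← hL'def] at w1 w2
    have h1 : ∀ m, ∑ n ∈ Finset.Ioc m (m + Y), fL z n * e ((b : ℝ) * n / q) =
        (∑ n ∈ Finset.Ioc m (m + Y), (ArithmeticFunction.vonMangoldt n : ℂ) *
          e ((b : ℝ) * n / q) - cc q b * Y) -
        (∑ n ∈ Finset.Ioc m (m + Y), (lamz z n : ℂ) * e ((b : ℝ) * n / q) - cc q b * Y) := by
      intro m
      rw [sub_sub_sub_cancel_right, ← Finset.sum_sub_distrib]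
      refine Finset.sum_congr rfl fun n _ => ?_
      unfold fL
      push_cast
      ring
    have hL'0 : 0 < L' ^ (U1 + 6) := by positivity
    have h3 : ∑ m ∈ Finset.Ioc x' (2 * x'), ‖∑ n ∈ Finset.Ioc m (m + Y),
        fL z n * e ((b : ℝ) * n / q)‖ ^ 2 ≤ 2 * (x' * (Y : ℝ) ^ 2 / L' ^ (U1 + 6)) +
        x' * (2 * ((Y : ℝ) / L' ^ (U1 + 6)) ^ 2) := by
      calc _ ≤ ∑ m ∈ Finset.Ioc x' (2 * x'), (2 * ‖∑ n ∈ Finset.Ioc m (m + Y),
            (ArithmeticFunction.vonMangoldt n : ℂ) * e ((b : ℝ) * n / q) - cc q b * Y‖ ^ 2 +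
            2 * ((Y : ℝ) / L' ^ (U1 + 6)) ^ 2) := by
            refine Finset.sum_le_sum fun m _ => ?_
            rw [h1]
            refine (sq_sub_le _ _).trans ?_
            have := w2 m
            gcongr
        _ = 2 * (∑ m ∈ Finset.Ioc x' (2 * x'), ‖∑ n ∈ Finset.Ioc m (m + Y),
            (ArithmeticFunction.vonMangoldt n : ℂ) * e ((b : ℝ) * n / q) - cc q b * Y‖ ^ 2) +
            x' * (2 * ((Y : ℝ) / L' ^ (U1 + 6)) ^ 2) := by
            rw [Finset.sum_add_distrib, ← Finset.mul_sum, Finset.sum_const, Nat.card_Ioc,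
              nsmul_eq_mul, show 2 * x' - x' = x' by omega]
        _ ≤ _ := by gcongr
    refine h3.trans ?_
    have h4 : 4 * L ^ (U1 + 2) ≤ L' ^ (U1 + 6) := by
      have h5 : (2 : ℝ) ^ (U1 + 8) ≤ L ^ 4 := by
        have h6 : (2 : ℝ) ^ (U1 + 8) ≤ L := by linarith
        refine h6.trans ?_
        exact le_self_pow₀ hL1 (by norm_num)
      calc 4 * L ^ (U1 + 2) = L ^ (U1 + 2) * 2 ^ (U1 + 8) / 2 ^ (U1 + 6) := by
            rw [eq_div_iff (by positivity)]
            ring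
        _ ≤ L ^ (U1 + 2) * L ^ 4 / 2 ^ (U1 + 6) := by gcongr
        _ = (L / 2) ^ (U1 + 6) := by rw [div_pow]; ring
        _ ≤ L' ^ (U1 + 6) := by gcongr
    have h6 : ((Y : ℝ) / L' ^ (U1 + 6)) ^ 2 ≤ (Y : ℝ) ^ 2 / L' ^ (U1 + 6) := by
      rw [div_pow]
      have : L' ^ (U1 + 6) ≤ (L' ^ (U1 + 6)) ^ 2 := le_self_pow₀ (one_le_pow₀ hL'1) (by norm_num)
      gcongr
    calc 2 * (x' * (Y : ℝ) ^ 2 / L' ^ (U1 + 6)) + x' * (2 * ((Y : ℝ) / L' ^ (U1 + 6)) ^ 2)
        ≤ 2 * (x' * (Y : ℝ) ^ 2 / L' ^ (U1 + 6)) + x' * (2 * ((Y : ℝ) ^ 2 / L' ^ (U1 + 6))) := by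
          gcongr
      _ = x' * (Y : ℝ) ^ 2 * (4 / L' ^ (U1 + 6)) := by ring
      _ ≤ x' * (Y : ℝ) ^ 2 * (1 / L ^ (U1 + 2)) := by
          refine mul_le_mul_of_nonneg_left ?_ (by positivity)
          rw [div_le_div_iff₀ hL'0 (by positivity)]
          linarith
      _ = _ := by ring

end Pool.Agent.Q208.CR
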